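import Pool.Agent.W382.HZ.FIN
import Pool.Agent.W762.HZ.RED
import Pool.Agent.W349.HZ.LAT
import Pool.Agent.W490.HZ.GD1
import Pool.Agent.W349.HZ.GD2
import Pool.Agent.W803.HZ.DET
import Pool.Agent.W19.HZ.DPB
import Pool.Agent.W12.HZ.C2R
import Pool.Agent.W12.HZ.C1R
import Pool.Agent.W164.HZ.PAR
import Pool.Agent.W131.HZ.VA2
import Pool.Agent.W591.HZ.VA1
import Pool.Agent.W563.HZ.REL
import Pool.Agent.W12.HZ.NCU
import Pool.Agent.W61.HZ.PAD
import Pool.Agent.W33.HZ.CLS
import Pool.Agent.W499.HZ.PRM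
import Pool.Agent.W351.HZ.PPR
import Pool.Agent.W462.HZ.CUB
import Pool.Agent.W60.HZ.INA
import Pool.Agent.W303.HZ.IN2
import Pool.Agent.W369.HZ.IN1
import Pool.Agent.W284.HZ.FIB
import Pool.Agent.W214.HZ.CNC
import Pool.Agent.W348.HZ.CCU
import Pool.Agent.W654.HZ.CLT
import Pool.Agent.W768.HZ.CA0
import Pool.Agent.W904.HZ.SMX

/-!
# Hall's conjecture for almost all `k`, up to exponential heights

For all but `O(K ^ (99 / 100))` of the integers `k` with `0 < |k| ≤ K`, Mordell's equation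
`y ^ 2 = x ^ 3 + k` has no integral solution at all with `|x| ≤ exp (K ^ (1 / 10000))`. So for
almost all `k` (with a power saving) every integral point violating Hall's inequality
`max (|x|, |y|) ≤ C |k| ^ 3` has height larger than `exp (|k| ^ (1 / 10000))`; the result is
unconditional and does not use linear forms in logarithms.

Method: Dirichlet's theorem and the correspondence between integral points and binary cubic forms
`(a, 3 b, 3 c, d)` with coefficients of size `K ^ (1 / 4)` (up to the cusp) representing `1` at a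
large point `(p, q)`. For given `a, b, c` and `d` in an interval of length `K ^ (1 / 44)`
(roughly) the determinants of the functions `d ^ j p`, `d ^ j q` are integers of absolute value
less than `1`; so the points lie on a curve `A(d) p + B(d) q = 0`, and there `F_d(-B(d), A(d))` is
the cube of an integer. As it is not the cube of a polynomial if `a` is not a cube, a `p`-adic
determinant method gives a saving of the square root of the length of the interval.
-/

namespace Pool.Agent.Results.MP_f2148a_nt.AlmostAllK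

open Pool.Agent.W223.HZ

/-- There is `M` such that for every `K ≥ 1`, for all but at most `M K ^ (99 / 100)` of the
integers `k` with `0 < |k| ≤ K`, the equation `y ^ 2 = x ^ 3 + k` has no solution in integers with
`|x| ≤ exp (K ^ (1 / 10000))`. -/
theorem result : ∃ M : ℝ, ∀ K : ℝ, 1 ≤ K →
    ({k : ℤ | k ≠ 0 ∧ |(k : ℝ)| ≤ K ∧ ∃ x y : ℤ, y ^ 2 = x ^ 3 + k ∧
      |(x : ℝ)| ≤ Real.exp (K ^ ((1 : ℝ) / 10000))}.ncard : ℝ) ≤ M * K ^ ((99 : ℝ) / 100) := by
  have hDET : StmtDET := Pool.Agent.W803.HZ.DET.t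
  have hDPB : StmtDPB := Pool.Agent.W19.HZ.t hDET
  have hPAR : StmtPAR := Pool.Agent.W164.HZ.t
  have hVA2 : StmtVA2 := Pool.Agent.W131.HZ.VA2.t Pool.Agent.W12.HZ.C2R.t hDPB hPAR
  have hVA1 : StmtVA1 := Pool.Agent.W591.HZ.t Pool.Agent.W12.HZ.C1R.t hDPB hPAR
  have hREL : StmtREL := Pool.Agent.W563.HZ.REL.t
  have hCLS : StmtCLS := Pool.Agent.W33.HZ.t Pool.Agent.W12.HZ.NCU.t Pool.Agent.W61.HZ.t hREL
  have hPPR : StmtPPR := Pool.Agent.W351.HZ.t Pool.Agent.W499.HZ.PRM.t
  have hCUB : StmtCUB := Pool.Agent.W462.HZ.t hCLS hPPR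
  have hINA : StmtINA := Pool.Agent.W60.HZ.t
  have hIN2 : StmtIN2 := Pool.Agent.W303.HZ.IN2.t hVA2 hREL hCUB hINA
  have hIN1 : StmtIN1 := Pool.Agent.W369.HZ.IN1.t hVA1 hREL hCUB hINA
  have hFIB : StmtFIB := Pool.Agent.W284.HZFIB.t hIN2 hIN1
  have hCNC : StmtCNC := Pool.Agent.W214.HZ.t hFIB
  have hRED : StmtRED := Pool.Agent.W762.HZ.RED.t Pool.Agent.W349.HZ.LAT.t
    Pool.Agent.W490.HZ.GD1.t Pool.Agent.W349.HZ.GD2.t
  exact Pool.Agent.W382.HZ.FIN.t hRED Pool.Agent.W904.HZ.t Pool.Agent.W768.HZ.t hCNC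
    Pool.Agent.W348.HZ.t Pool.Agent.W654.HZ.CLT.t

end Pool.Agent.Results.MP_f2148a_nt.AlmostAllK
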